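import Pool.Agent.LKT.Stmts

/-!
# Squad LKT, row ABS (local lemma)
-/

set_option autoImplicit false

open Topology

namespace Pool.Agent.LKT.H36

open Pool.Agent.LCK Pool.Agent.LKT

theorem abs (h1 : OneStmt) : AbsStmt := by
  classical
  intro N f O haff hcont hO hG hW c hcO hcW
  obtain ⟨r, hr, hrO⟩ := Metric.isOpen_iff.mp hO c hcO
  set W : Set (Fin 8 → E3) := {x | ∀ i, 0 < f i x} with hWdef
  have hWo : IsOpen W := by
    have : W = ⋂ i, {x | 0 < f i x} := by
      ext x
      simp [hWdef]
    rw [this]
    exact isOpen_iInter_of_finite fun i => isOpen_lt continuous_const (hcont i)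
  have hball : ∀ x : Fin 8 → E3, x ∈ Metric.ball c r ↔ ∀ k, x k ∈ Metric.ball (c k) r := by
    intro x
    rw [Metric.mem_ball, dist_pi_lt_iff hr]
    simp only [Metric.mem_ball]
  have hupd : ∀ (x : Fin 8 → E3) (k : Fin 8) (y : E3), x ∈ Metric.ball c r →
      y ∈ Metric.ball (c k) r → Function.update x k y ∈ Metric.ball c r := by
    intro x k y hx hy
    rw [hball] at hx ⊢
    intro k'
    by_cases h : k' = k
    · subst h
      rw [Function.update_self]
      exact hy
    · rw [Function.update_of_ne h]
      exact hx k'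
  have key : ∀ w ∈ Metric.ball c r, w ∈ closure W → ∀ k, ∀ y ∈ Metric.ball (c k) r,
      Function.update w k y ∈ closure W := by
    intro w hwB hwW k y hy
    have h2 : w ∈ closure (W ∩ Metric.ball c r) :=
      closure_mono (Set.inter_comm _ _).subset
        (Metric.isOpen_ball.inter_closure ⟨hwB, hwW⟩)
    have h3 : W ∩ Metric.ball c r ⊆
        closure ((W ∩ Metric.ball c r) ∩ {x : Fin 8 → E3 | ∀ k i j, i ≠ j → NP f k i j x}) :=
      hG.open_subset_closure_inter (hWo.inter Metric.isOpen_ball)
    have h4 : w ∈ closure ((W ∩ Metric.ball c r) ∩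
        {x : Fin 8 → E3 | ∀ k i j, i ≠ j → NP f k i j x}) :=
      closure_minimal h3 isClosed_closure h2
    have hc : Continuous fun x : Fin 8 → E3 => Function.update x k y :=
      continuous_id.update k continuous_const
    refine map_mem_closure (f := fun x : Fin 8 → E3 => Function.update x k y) hc h4 ?_
    rintro w' ⟨⟨hw'W, hw'B⟩, hw'G⟩
    exact h1 N f w' k (Metric.ball (c k) r) (fun i => haff i w' k) Metric.isOpen_ball
      (convex_ball _ _) ((hball w').mp hw'B k) hw'W (fun i j hij => hw'G k i j hij)
      (fun y' hy' j hj => hW _ (hrO (hupd w' k y' hw'B hy')) j hj) y hy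
  refine Filter.mem_of_superset (Metric.ball_mem_nhds c hr) ?_
  intro x hx
  have hx' := (hball x).mp hx
  have hcB : c ∈ Metric.ball c r := Metric.mem_ball_self hr
  have hind : ∀ s : Finset (Fin 8), s.piecewise x c ∈ Metric.ball c r ∧
      s.piecewise x c ∈ closure W := by
    intro s
    induction s using Finset.induction_on with
    | empty =>
      rw [Finset.piecewise_empty]
      exact ⟨hcB, hcW⟩
    | insert a s has ih =>
      rw [Finset.piecewise_insert]
      exact ⟨hupd _ _ _ ih.1 (hx' a), key _ ih.1 ih.2 a _ (hx' a)⟩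
  have h := (hind Finset.univ).2
  rwa [Finset.piecewise_univ] at h

end Pool.Agent.LKT.H36
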